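import Pool.Agent.H885.EndR
import Pool.Agent.H885.UnifZF
import Pool.Agent.H885.UnifF
import Pool.Agent.H885.BaseF
import Pool.Agent.H885.Mono
import Pool.Agent.H885.Cnt
import Pool.Agent.H885.FewR

/-!
# Points of bounded degree on PEL-type special subvarieties: endomorphisms of the fibres of all families over number fields

The conjecture on large Galois orbits (Q1) says that the points `s` of a Hodge generic subvariety `V ⊂ 𝒜_g` which are isolated points
of intersections with special subvarieties `Z` of PEL type of small dimension have large Galois orbits compared with the discriminant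
of `End(A_s)`; so for the points of **bounded degree** the discriminants are bounded. We consider the points of `V(F)`, `F` a
number field, near a given point `0` of `V(F)` and prove: **with few exceptions they are on no special subvarieties of
PEL type at all, `End(A_s) = ℤ`**, if the monodromy of the family on the line through `0` and `s` is `Sp(2 g)` (the monodromy
of Hodge generic `V` of positive dimension is `Sp(2 g)` by a theorem of André, and it is the same on general lines). In general the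
endomorphisms of `A_s` commute with the monodromy up to a small codimension, with few exceptions.

Let `V` be an open part of an affine space of **any dimension `m`** over `F` with a family of abelian varieties (`n = 2 g`). The period
matrix is `P_j(x) = C_j Z_j(x)` where `Z_j` is the fundamental matrix with `Z_j(0) = 1` of the Gauss–Manin system (its entries are
G-functions in the `m` variables `x`) and `C_j` is the period matrix of the fibre over `0`. All points of `V(F)` have the form
`a / b` with `a ∈ 𝓞_F^m`, `b ∈ ℕ`. An endomorphism of the fibre (over `ℚ̄`) acts by `X` on Betti cohomology and by `Y` on de Rham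
cohomology, and `X P = P Y`; `X` is integral and the entries of `Y` are algebraic numbers of degree at most `e`, where `e`
depends only on `g` and `[F : ℚ]` (Silverberg), so our statements for such `e` are about **all** endomorphisms. We consider `N` such
abelian varieties `V_j` at `N` points `a_j / b_j`, for any embeddings `φ_j` of `F`, and another object `V_0` with period matrix `C₀`.

**Theorem.** Fix a number field `F` and `m, n, N, r₀, M, q, s, ℓ, e`. There is `E` with the following property for all complex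
numbers `β_1, …, β_s`, all `H, h, w` and all `b₀ ≥ (2 H (h + w + 2))^E`. We consider (`Fibres.Valid`)

* **all** tuples `b_1, …, b_N` of denominators in the window `[b₀, b₀ + w]`, at most `M` of them different, such that the
  distances of different `b_j` are larger than `2^(m+1) H (h + 2)`,
* **all** families, that is, all `n × n` systems `T ∂Z_j / ∂x_i = Z_j A_{ji}` over `𝓞_F[x]` of degree at most `q`, for which the
  houses of the coefficients and the growth constants of the coefficients and of the denominators of `Z_j` and `Z_j⁻¹` are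
  at most `H`,
* **all** numerators `a_j ∈ 𝓞_F^m` the houses of which are at most `h`, such that the line `F a_j` is not contained in the polar
  locus `T = 0`,
* **all** numbers `γ_1, …, γ_ℓ` and **all** central fibres such that, up to a common factor `κ`, the periods (entries of the
  `C_j` and of `C₀`) are algebraic of degree at most `e` over `ℚ(β_1, …, β_s, γ_1, …, γ_ℓ)`, and the period matrices are
  invertible,
* any space `𝔤` of tuples `(X_1, …, X_N)` of matrices such that, for each `c`, the tuple of the `X_j` with `b_j = c` is an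
  infinitesimal symmetry of the restrictions of the `Z_j` with `b_j = c` to the lines `F a_j`, for instance the product of the
  Lie algebras of the differential Galois groups of these restrictions for the different denominators; then `C 𝔤 C⁻¹` is the
  Lie algebra of the (joint) monodromy group.

Then:

1. For any number of tuples as above, of any families, the denominators of which are at distance larger than
   `2^(m+1) H (h + 2)` for different tuples, there are `ρ_1, ρ_2, …` with `∑ ρ_l ≤ s` such that for the tuple with number `l` **the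
   part of `C 𝔤 C⁻¹` which commutes with all endomorphisms of `V_0 ⊕ V_1 ⊕ … ⊕ V_N` has codimension at most `ρ_l + ℓ`**
   (`Fibres.EndomorphismsUpTo`). If the monodromy is big, that is, if `𝔤` contains the Lie algebras of the symplectic groups in
   all components, and `ρ_l + ℓ + 2 ≤ n`, then the endomorphisms of `V_0 ⊕ V_1 ⊕ … ⊕ V_N` are `X₀ ⊕ c_1 ⊕ … ⊕ c_N`
   (`Fibres.OnlyScalars`): **`End(V_j) = ℤ` for all `j`**, and the `V_j` are pairwise not isogenous (so the tuple is on no special
   subvariety of PEL type of `𝒜_g^N` except products) and have no isogeny factor in common with `V_0`.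
2. **Few exceptional denominators:** for each `r ≥ ℓ` there is a set of at most `M ⌊s / (r + 1 - ℓ)⌋` denominators such that the
   two statements are true with `r` instead of `ρ_l + ℓ` for **all** tuples of fibres as above whose denominators are at distance
   larger than `2^(m+1) H (h + 2)` from the elements of this set. It depends on `β_1, …, β_s` and on the window only, not on the
   families, the central fibres, the points or `V_0`.
3. **Without windows:** there is `k`, which depends only on `F, m, n, N, r₀, q, s, ℓ, e`, such that for all `β_1, …, β_s`, `H` and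
   `h` the number of the integers `b ≤ B` which are the denominators of some tuple of points `a_j / b` as above, of any
   families, for which this is not true with `r = ℓ`, is `O(B^(1 - 1/k))`.

If `s + ℓ + 2 ≤ 2 g` then part 2 with `r = s + ℓ` has **no exceptions**. For example, if the fibre over `0` is isogenous to a power of an
elliptic curve with complex multiplication then `s = 2` (Chudnovsky; up to the common factor `κ` even `s = 1`), and for `g ≥ 2` **all**
points `a / b` of `V(F)` with `b ≥ (2 H (h + 2))^E` have `End = ℤ`: none of them is on a special subvariety of PEL type.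

Our `EndomorphismsNearDegenerate` (MP_bb3355_nt) is the analogous theorem over `ℚ` with `s + 1` instead of `s` if the fibre over
`0` may be degenerate. The points here are near the given point `0` in all archimedean places (the houses of the `a_j` are at
most `h`); for points which are not near `0` nothing is proved. That the period matrices have this form, the facts on
the monodromy groups and on endomorphisms are from the literature and not part of the Lean theorem.

Proof (`Pool/Agent/H885`). (i) A linear independence theorem for values of G-functions over `F` at `1 / t` in which all constants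
are explicit powers of the height of the system, and shifts: the values at `1 / b_j` are values at `1 / t` of other
G-functions (`DerF`). (ii) The ultraproduct of a sequence of counterexamples has, for each of the separated tuples and each
symmetry `X ∈ 𝔤`, a derivation of `*ℂ` over `*ℚ` which moves the `Z_j` at this tuple by `X` and kills those at all other
tuples (`derF`). (iii) By linear algebra the derivations which kill the `β_i` and the `γ_i` act on the `Z_j` at the tuple `l` by
a space of matrices in `𝔤` of codimension at most `ρ_l + ℓ`, `∑ ρ_l ≤ s` (`coreZ`, `absZ`, `uniformZF`). (iv) A derivation `∂`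
kills the entries of `X` and `Y`, so `X ∂P = ∂P Y` and the logarithmic derivative `∂P P⁻¹` commutes with `X`, for all
endomorphisms at the same time (`EndR`). (v) The symplectic Lie algebra has no proper subalgebra of codimension at most `n - 2`
(`Helper880_R3`), so it commutes with all endomorphisms, and these are scalars by Schur's lemma.
-/

set_option autoImplicit false

open PowerSeries Filter NumberField
open scoped Matrix

namespace Pool.Agent.Results.MP_dd7e6b_nt.EndomorphismsOverNumberFields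

section several
variable {F : Type} [Field F] [NumberField F] {n m N : ℕ}

/-- a polynomial in `m` variables with coefficients in the ring of integers `𝓞 F` as a power series with coefficients in `F` -/
noncomputable def toSeries (P : MvPolynomial (Fin m) (𝓞 F)) : MvPowerSeries (Fin m) F :=
  ((P.map (algebraMap (𝓞 F) F) : MvPolynomial (Fin m) F) : MvPowerSeries (Fin m) F)

/-- the partial derivative `∂f / ∂x_i` -/
noncomputable def partialD (i : Fin m) (f : MvPowerSeries (Fin m) F) : MvPowerSeries (Fin m) F :=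
  fun ν => ((ν i : F) + 1) * MvPowerSeries.coeff (ν + Finsupp.single i 1) f

/-- `Z` is an invertible `n × n` matrix of G-functions in `m` variables with coefficients in the number field `F`, `W = Z⁻¹`,
which solves the system `T ∂Z / ∂x_i = Z A_i`, `i = 1, …, m`. The degrees of `T` and `A_i` are at most `q`; the
houses of their coefficients and the growth of the coefficients of `Z` and of the denominators of the
coefficients of `Z` and `W` are bounded by `H`. -/
structure Family (q : ℕ) (H : ℝ) (T : MvPolynomial (Fin m) (𝓞 F)) (A : Fin m → Fin n → Fin n → MvPolynomial (Fin m) (𝓞 F))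
    (Z W : Matrix (Fin n) (Fin n) (MvPowerSeries (Fin m) F)) : Prop where
  /-- the degree of `T` -/
  degT : T.totalDegree ≤ q
  /-- the height of `T` -/
  sizeT : ∀ ν, house (algebraMap (𝓞 F) F (T.coeff ν)) ≤ H
  /-- the degrees of the `A_i` -/
  degA : ∀ i a b, (A i a b).totalDegree ≤ q
  /-- the heights of the `A_i` -/
  sizeA : ∀ i a b ν, house (algebraMap (𝓞 F) F ((A i a b).coeff ν)) ≤ H
  /-- the differential equations -/
  ode : ∀ i a b, toSeries T * partialD i (Z a b) = ∑ l, Z a l * toSeries (A i l b)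
  /-- `W` is the inverse of `Z` -/
  inv : W * Z = 1
  /-- the growth of the coefficients -/
  size : ∀ a b (ν : Fin m →₀ ℕ), house (MvPowerSeries.coeff ν (Z a b)) ≤ H ^ (∑ i, ν i + 1)
  /-- the growth of the common denominators of the coefficients -/
  den : ∀ k : ℕ, ∃ d : ℕ, 0 < d ∧ (d : ℝ) ≤ H ^ (k + 1) ∧ ∀ a b (ν : Fin m →₀ ℕ), ∑ i, ν i ≤ k →
    IsIntegral ℤ ((d : F) * MvPowerSeries.coeff ν (Z a b)) ∧ IsIntegral ℤ ((d : F) * MvPowerSeries.coeff ν (W a b))

/-- the power series `f(x a)` in the variable `x`, the restriction of `f` to the line through `0` with direction `a` -/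
noncomputable def restrict (a : Fin m → 𝓞 F) (f : MvPowerSeries (Fin m) F) : PowerSeries F :=
  PowerSeries.mk fun k => ∑ ν ∈ (Finset.univ : Finset (Fin m)).finsuppAntidiag k,
    MvPowerSeries.coeff ν f * ∏ i, (algebraMap (𝓞 F) F (a i)) ^ ν i

/-- the value `φ(Z)(φ(a) / b)`, that is, the value at `x = 1 / b` of the restriction of `Z` to the line, for the embedding `φ` -/
noncomputable def value (φ : F →+* ℂ) (Z : Matrix (Fin n) (Fin n) (MvPowerSeries (Fin m) F)) (a : Fin m → 𝓞 F) (b : ℕ) :
    Matrix (Fin n) (Fin n) ℂ :=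
  Matrix.of fun i j => ∑' k : ℕ, φ (coeff k (restrict a (Z i j))) * (1 / (b : ℂ)) ^ k

/-- the restriction of `Z` to the line with direction `a`, over `ℂ` -/
noncomputable def onLine (φ : F →+* ℂ) (a : Fin m → 𝓞 F) (Z : Matrix (Fin n) (Fin n) (MvPowerSeries (Fin m) F)) :
    Matrix (Fin n) (Fin n) (PowerSeries ℂ) :=
  Z.map fun f => PowerSeries.map φ (restrict a f)

/-- `(X_1, …, X_N)` is an infinitesimal symmetry of the matrices `Y_1, …, Y_N` of power series: for all polynomial relations
`R(x, Y_1(x), …, Y_N(x)) = 0` over `ℂ[x]` the derivative of `R(x, (1 + ε X_1) Y_1(x), …, (1 + ε X_N) Y_N(x))` at `ε = 0` is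
zero. -/
def Symmetry (Y : Fin N → Matrix (Fin n) (Fin n) (PowerSeries ℂ)) (X : Fin N → Matrix (Fin n) (Fin n) ℂ) : Prop :=
  ∀ R : MvPolynomial (Fin N × Fin n × Fin n) (Polynomial ℂ),
    MvPolynomial.aeval (fun σ => Y σ.1 σ.2.1 σ.2.2) R = 0 →
    ∑ σ, MvPolynomial.aeval (fun σ => Y σ.1 σ.2.1 σ.2.2) (MvPolynomial.pderiv σ R) *
      ((X σ.1).map (PowerSeries.C (R := ℂ)) * Y σ.1) σ.2.1 σ.2.2 = 0

end several

/-- `y` satisfies an equation `P(ξ, y) = 0` where `P` has rational coefficients and total degree at most `e` and `P(ξ, Y)` is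
not the zero polynomial. All algebraic numbers of degree at most `e` and all polynomials of degree at most `e` in the `ξ_i` with
rational coefficients have this property. -/
def AlgebraicOver (e : ℕ) {u : ℕ} (ξ : Fin u → ℂ) (y : ℂ) : Prop :=
  ∃ P : MvPolynomial (Option (Fin u)) ℚ, P.totalDegree ≤ e ∧ MvPolynomial.aeval (fun o : Option (Fin u) => o.elim y ξ) P = 0 ∧
    ∃ y' : ℂ, MvPolynomial.aeval (fun o : Option (Fin u) => o.elim y' ξ) P ≠ 0

/-- numbers which are algebraic over `ℚ(ξ_1, …, ξ_u)` are algebraic of bounded degree -/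
theorem algebraicOver_of_isAlgebraic {u : ℕ} {ξ : Fin u → ℂ} {y : ℂ}
    (h : IsAlgebraic (IntermediateField.adjoin ℚ (Set.range ξ)) y) : ∃ e, AlgebraicOver e ξ y :=
  Pool.Agent.H885.algD_of_alg h

/-- the distance of `b` and `c` is larger than `2^(m+1) H (h + 2)` -/
def Far (m : ℕ) (H : ℝ) (h b c : ℕ) : Prop := 2 ^ (m + 1) * H * ((h : ℝ) + 2) < |(b : ℝ) - c|
section
variable {n N r₀ : ℕ}

/-- the block matrix `x ⊕ X_1 ⊕ … ⊕ X_N` -/
def total (x : Matrix (Fin r₀) (Fin r₀) ℂ) (X : Fin N → Matrix (Fin n) (Fin n) ℂ) :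
    Matrix (Fin r₀ ⊕ (Fin n × Fin N)) (Fin r₀ ⊕ (Fin n × Fin N)) ℂ :=
  Matrix.fromBlocks x 0 0 (Matrix.blockDiagonal X)

/-- the tuples of the matrices `C_j X_j C_j⁻¹` with `X ∈ 𝔤` -/
def conjugate (C : Fin N → Matrix (Fin n) (Fin n) ℂ) (𝔤 : Submodule ℂ (Fin N → Matrix (Fin n) (Fin n) ℂ)) :
    Submodule ℂ (Fin N → Matrix (Fin n) (Fin n) ℂ) where
  carrier := {Y | ∃ X ∈ 𝔤, ∀ j, Y j = C j * X j * (C j)⁻¹}
  zero_mem' := ⟨0, 𝔤.zero_mem, fun j => by rw [Pi.zero_apply, Matrix.mul_zero, Matrix.zero_mul]⟩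
  add_mem' := by
    rintro Y Y' ⟨X, hX, h⟩ ⟨X', hX', h'⟩
    refine ⟨X + X', 𝔤.add_mem hX hX', fun j => ?_⟩
    rw [Pi.add_apply, Pi.add_apply, Matrix.mul_add, Matrix.add_mul, h, h']
  smul_mem' := by
    rintro c Y ⟨X, hX, h⟩
    refine ⟨c • X, 𝔤.smul_mem c hX, fun j => ?_⟩
    rw [Pi.smul_apply, Pi.smul_apply, Matrix.mul_smul, Matrix.smul_mul, h]

end
section blocks
variable {n N r₀ : ℕ}

/-- the space of all `(X_1, …, X_N)` with `0 ⊕ X_1 ⊕ … ⊕ X_N ∈ 𝔥` -/
def inBlocks (𝔥 : Submodule ℂ (Matrix (Fin r₀ ⊕ (Fin n × Fin N)) (Fin r₀ ⊕ (Fin n × Fin N)) ℂ)) :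
    Submodule ℂ (Fin N → Matrix (Fin n) (Fin n) ℂ) where
  carrier := {X | total 0 X ∈ 𝔥}
  zero_mem' := by
    have h : total (0 : Matrix (Fin r₀) (Fin r₀) ℂ) (0 : Fin N → Matrix (Fin n) (Fin n) ℂ) = 0 :=
      Pool.Agent.Helper880_EX.Tot_zero
    show total 0 (0 : Fin N → Matrix (Fin n) (Fin n) ℂ) ∈ 𝔥
    rw [h]
    exact 𝔥.zero_mem
  add_mem' := by
    intro X Y hX hY
    have h : total (0 : Matrix (Fin r₀) (Fin r₀) ℂ) (X + Y) = total 0 X + total 0 Y := Pool.Agent.Helper880_EX.Tot_add _ _
    show total 0 (X + Y) ∈ 𝔥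
    rw [h]
    exact 𝔥.add_mem hX hY
  smul_mem' := by
    intro c X hX
    have h : total (0 : Matrix (Fin r₀) (Fin r₀) ℂ) (c • X) = c • total 0 X := Pool.Agent.Helper880_EX.Tot_smul _ _
    show total 0 (c • X) ∈ 𝔥
    rw [h]
    exact 𝔥.smul_mem _ hX
end blocks

/-- `y` is an algebraic number of degree at most `e` -/
def AlgebraicNumber (e : ℕ) (y : ℂ) : Prop := ∃ p : Polynomial ℚ, p ≠ 0 ∧ p.natDegree ≤ e ∧ Polynomial.aeval y p = 0

section endomorphisms
variable {B : Type} [Fintype B] [DecidableEq B]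

/-- **Endomorphisms.** `P` is the period matrix of `V`, that is, the matrix of the comparison isomorphism from `V_dR` to `V_B` for
bases over `ℚ`. The matrices `X` and `Y` are the actions of an endomorphism on Betti cohomology and on de Rham cohomology;
their entries are algebraic numbers of degree at most `e`. All endomorphisms of abelian varieties over `ℚ` of a given
dimension are of this kind for some `e`: `X` is integral, and the endomorphisms (over the algebraic closure) are defined over
a field of bounded degree (Silverberg). -/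
structure IsEndomorphism (e : ℕ) (P X Y : Matrix B B ℂ) : Prop where
  /-- the action on Betti cohomology, for example an integral matrix -/
  betti : ∀ i j, AlgebraicNumber e (X i j)
  /-- the action on de Rham cohomology -/
  deRham : ∀ i j, AlgebraicNumber e (Y i j)
  /-- they are compatible with the comparison isomorphism -/
  compatible : X * P = P * Y

/-- the matrices which commute with all endomorphisms (with entries of degree at most `e`) -/
def commutant (e : ℕ) (P : Matrix B B ℂ) : Submodule ℂ (Matrix B B ℂ) where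
  carrier := {A | ∀ X Y, IsEndomorphism e P X Y → A * X = X * A}
  zero_mem' := fun X Y _ => by rw [Matrix.zero_mul, Matrix.mul_zero]
  add_mem' := by
    intro A A' hA hA' X Y h
    rw [Matrix.add_mul, Matrix.mul_add, hA X Y h, hA' X Y h]
  smul_mem' := by
    intro c A hA X Y h
    rw [Matrix.smul_mul, Matrix.mul_smul, hA X Y h]

end endomorphisms

/-- A tuple of `N` fibres: denominators `b_j` and numerators `a_j` of the points, embeddings `φ_j` of the number field, systems
`T_j, A_j`, their fundamental matrices `Z_j` and `W_j = Z_j⁻¹`, the period matrices `C_j` of the central fibres and `C₀` of the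
object `V_0`, a factor `κ` and `ℓ` further numbers `γ`, and a space `𝔤` of tuples of matrices, for instance the Lie algebra of
the differential Galois group of the restrictions of the systems to the lines through `0` and the points. -/
structure Fibres (F : Type) [Field F] [NumberField F] (m n N r₀ ℓ : ℕ) where
  /-- the denominators of the points -/
  b : Fin N → ℕ
  /-- the numerators of the points -/
  a : Fin N → Fin m → 𝓞 F
  /-- the embeddings -/
  φ : Fin N → F →+* ℂ
  /-- the denominators of the systems -/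
  T : Fin N → MvPolynomial (Fin m) (𝓞 F)
  /-- the matrices of the systems -/
  A : Fin N → Fin m → Fin n → Fin n → MvPolynomial (Fin m) (𝓞 F)
  /-- the fundamental matrices -/
  Z : Fin N → Matrix (Fin n) (Fin n) (MvPowerSeries (Fin m) F)
  /-- their inverses -/
  W : Fin N → Matrix (Fin n) (Fin n) (MvPowerSeries (Fin m) F)
  /-- further constants -/
  γ : Fin ℓ → ℂ
  /-- the common factor of the periods -/
  κ : ℂ
  /-- the periods of `V_0` -/
  C₀ : Matrix (Fin r₀) (Fin r₀) ℂ
  /-- the periods of the central fibres -/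
  C : Fin N → Matrix (Fin n) (Fin n) ℂ
  /-- symmetries -/
  𝔤 : Submodule ℂ (Fin N → Matrix (Fin n) (Fin n) ℂ)

section fibres
variable {F : Type} [Field F] [NumberField F] {m n N r₀ ℓ s : ℕ}

/-- the period matrices `C_j Z_j(a_j / b_j)` of the fibres -/
noncomputable def Fibres.periods (x : Fibres F m n N r₀ ℓ) : Fin N → Matrix (Fin n) (Fin n) ℂ :=
  fun j => x.C j * value (x.φ j) (x.Z j) (x.a j) (x.b j)

/-- The conditions for a tuple of fibres, see the description of the theorem. -/
structure Fibres.Valid (q M e : ℕ) (β : Fin s → ℂ) (H : ℝ) (h w b₀ : ℕ) (x : Fibres F m n N r₀ ℓ) : Prop where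
  /-- the denominators are in the window `[b₀, b₀ + w]` -/
  window : ∀ j, b₀ ≤ x.b j ∧ x.b j ≤ b₀ + w
  /-- they are equal or far from each other -/
  far : ∀ i j, x.b i = x.b j ∨ Far m H h (x.b i) (x.b j)
  /-- at most `M` of them are different -/
  different : (Finset.univ.image x.b).card ≤ M
  /-- the numerators are bounded by `h` -/
  numerators : ∀ j i, house (algebraMap (𝓞 F) F (x.a j i)) ≤ h
  /-- the systems have degree at most `q`, height and growth constants at most `H` -/
  family : ∀ j, Family q H (x.T j) (x.A j) (x.Z j) (x.W j)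
  /-- the lines are not contained in the polar loci -/
  pole : ∀ j, restrict (x.a j) (toSeries (x.T j)) ≠ 0
  /-- the factor is not zero -/
  factor : x.κ ≠ 0
  /-- the periods of `V_0` are algebraic over `ℚ(β, γ)`, up to the factor -/
  central₀ : ∀ i i', AlgebraicOver e (Fin.append β x.γ) (x.κ * x.C₀ i i')
  /-- the periods of the central fibres are algebraic over `ℚ(β, γ)`, up to the factor -/
  central : ∀ j i i', AlgebraicOver e (Fin.append β x.γ) (x.κ * x.C j i i')
  /-- the period matrices are invertible -/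
  invertible : IsUnit (total x.C₀ x.periods)
  /-- `𝔤` consists of infinitesimal symmetries, separately for each denominator `c` -/
  symmetries : ∀ X ∈ x.𝔤, ∀ c : ℕ,
    Symmetry (fun j => if x.b j = c then onLine (x.φ j) (x.a j) (x.Z j) else 1) (fun j => if x.b j = c then X j else 0)

/-- The monodromy commutes with all endomorphisms up to codimension `r`: the subspace of `C 𝔤 C⁻¹` (the Lie algebra of the
monodromy group) of all elements which commute with **all** endomorphisms (with entries of degree at most `e`) of the object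
`V_0 ⊕ V_1 ⊕ … ⊕ V_N` has codimension at most `r`. -/
def Fibres.EndomorphismsUpTo (e r : ℕ) (x : Fibres F m n N r₀ ℓ) : Prop :=
  Module.finrank ℂ (conjugate x.C x.𝔤) ≤
    Module.finrank ℂ (conjugate x.C x.𝔤 ⊓ inBlocks (commutant e (total x.C₀ x.periods)) :
      Submodule ℂ (Fin N → Matrix (Fin n) (Fin n) ℂ)) + r

/-- **Only scalars for big monodromy.** If `𝔤` contains the Lie algebras of the symplectic groups of nondegenerate alternating
forms in all components and `r + 2 ≤ n`, then each endomorphism of `V_0 ⊕ V_1 ⊕ … ⊕ V_N` is `X₀ ⊕ c_1 ⊕ … ⊕ c_N` with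
numbers `c_j`. So the `V_j`, `j ≥ 1`, have no endomorphisms except the scalars, and there are no homomorphisms between
`V_i` and `V_j`, `i ≠ j`, and between `V_0` and `V_j`. -/
def Fibres.OnlyScalars (e r : ℕ) (x : Fibres F m n N r₀ ℓ) : Prop :=
  r + 2 ≤ n → (∀ j : Fin N, ∃ B : Matrix (Fin n) (Fin n) ℂ, IsUnit B ∧ Bᵀ = -B ∧ ∀ X : Matrix (Fin n) (Fin n) ℂ,
    X * B + B * Xᵀ = 0 → (Pi.single j X : Fin N → Matrix (Fin n) (Fin n) ℂ) ∈ x.𝔤) →
  ∀ X Y, IsEndomorphism e (total x.C₀ x.periods) X Y →
    ∃ (X₀ : Matrix (Fin r₀) (Fin r₀) ℂ) (c : Fin N → ℂ), X = total X₀ fun j => c j • 1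

/-- the denominators of two tuples of fibres are far from each other -/
def Separated (H : ℝ) (h : ℕ) (x y : Fibres F m n N r₀ ℓ) : Prop := ∀ i j, Far m H h (x.b i) (y.b j)

/-- the denominators `b ≤ B` of the tuples of points `a_j / b` which satisfy the conditions (for the window `{b}`) but for which
one of the two conclusions with `r = ℓ` is not true -/
def exceptional (F : Type) [Field F] [NumberField F] (m n N r₀ ℓ : ℕ) (q e : ℕ) (β : Fin s → ℂ) (H : ℝ) (h B : ℕ) : Set ℕ :=
  {b | b ≤ B ∧ ∃ x : Fibres F m n N r₀ ℓ, x.Valid q 1 e β H h 0 b ∧ (∀ j, x.b j = b) ∧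
    ¬ (x.EndomorphismsUpTo e ℓ ∧ x.OnlyScalars e ℓ)}

end fibres

/-! ## Proofs -/

theorem gfam_of {F : Type} [Field F] [NumberField F] {m n q : ℕ} {H : ℝ} {T : MvPolynomial (Fin m) (𝓞 F)}
    {A : Fin m → Fin n → Fin n → MvPolynomial (Fin m) (𝓞 F)} {Z W : Matrix (Fin n) (Fin n) (MvPowerSeries (Fin m) F)}
    (h : Family q H T A Z W) : Pool.Agent.H885.GFam q H T A Z W :=
  ⟨h.degT, h.sizeT, h.degA, h.sizeA, h.ode, h.inv, h.size, h.den⟩

theorem far_symm {m : ℕ} {H : ℝ} {h b c : ℕ} (hbc : Far m H h b c) : Far m H h c b := by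
  unfold Far at hbc ⊢
  rw [abs_sub_comm]
  exact hbc

/-! ### Consequences for big monodromy -/

theorem en_iff {B : Type} [Fintype B] [DecidableEq B] {e : ℕ} {P X Y : Matrix B B ℂ} :
    IsEndomorphism e P X Y ↔ Pool.Agent.H885.ENR.En e P X Y :=
  ⟨fun h => ⟨h.betti, h.deRham, h.compatible⟩, fun h => ⟨h.algX, h.algY, h.eq⟩⟩

theorem commutant_eq {B : Type} [Fintype B] [DecidableEq B] {e : ℕ} {P : Matrix B B ℂ} :
    commutant e P = Pool.Agent.H885.ENR.cen e P := by
  ext A
  exact ⟨fun h X Y hc => h X Y (en_iff.2 hc), fun h X Y hc => h X Y (en_iff.1 hc)⟩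

section entries
variable {n N r₀ : ℕ}

theorem single_inr (j : Fin N) (H : Matrix (Fin n) (Fin n) ℂ) (u k : Fin n) (a b : Fin N) :
    total (0 : Matrix (Fin r₀) (Fin r₀) ℂ) (Pi.single j H) (Sum.inr (u, a)) (Sum.inr (k, b)) =
      if a = j ∧ b = j then H u k else 0 := by
  unfold total
  rw [Matrix.fromBlocks_apply₂₂, Matrix.blockDiagonal_apply]
  by_cases hab : a = b
  · subst hab
    rw [if_pos rfl]
    by_cases ha : a = j
    · subst ha
      rw [if_pos ⟨rfl, rfl⟩, Pi.single_eq_same]
    · rw [if_neg (fun h : a = j ∧ a = j => ha h.1), Pi.single_eq_of_ne ha]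
      rfl
  · rw [if_neg (show ¬ (u, a).2 = (k, b).2 from hab), if_neg (fun h => hab (h.1.trans h.2.symm))]

/-- the index `i` is not in the component `j` -/
def Out (j : Fin N) : Fin r₀ ⊕ (Fin n × Fin N) → Prop := Sum.elim (fun _ => True) fun p => p.2 ≠ j

theorem single_out_left {j : Fin N} {i : Fin r₀ ⊕ (Fin n × Fin N)} (hi : Out j i) (H : Matrix (Fin n) (Fin n) ℂ)
    (k : Fin r₀ ⊕ (Fin n × Fin N)) : total (0 : Matrix (Fin r₀) (Fin r₀) ℂ) (Pi.single j H) i k = 0 := by
  rcases i with i | ⟨i, a⟩ <;> rcases k with k | ⟨k, b⟩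
  · rfl
  · rfl
  · rfl
  · rw [single_inr, if_neg (fun h => hi h.1)]

theorem single_out_right {j : Fin N} {k : Fin r₀ ⊕ (Fin n × Fin N)} (hk : Out j k) (H : Matrix (Fin n) (Fin n) ℂ)
    (i : Fin r₀ ⊕ (Fin n × Fin N)) : total (0 : Matrix (Fin r₀) (Fin r₀) ℂ) (Pi.single j H) i k = 0 := by
  rcases i with i | ⟨i, a⟩ <;> rcases k with k | ⟨k, b⟩
  · rfl
  · rfl
  · rfl
  · rw [single_inr, if_neg (fun h => hk h.2)]

theorem sum_comp {j : Fin N} {f : Fin r₀ ⊕ (Fin n × Fin N) → ℂ} (hf : ∀ i, Out j i → f i = 0) :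
    ∑ i, f i = ∑ k : Fin n, f (Sum.inr (k, j)) := by
  rw [Fintype.sum_sum_type, Finset.sum_eq_zero (fun i _ => hf (Sum.inl i) trivial), zero_add, Fintype.sum_prod_type]
  refine Finset.sum_congr rfl fun k _ => ?_
  refine Finset.sum_eq_single j (fun b _ hb => hf (Sum.inr (k, b)) hb) fun h => absurd (Finset.mem_univ _) h

theorem mul_left_entry (j : Fin N) (H : Matrix (Fin n) (Fin n) ℂ)
    (M : Matrix (Fin r₀ ⊕ (Fin n × Fin N)) (Fin r₀ ⊕ (Fin n × Fin N)) ℂ) (u : Fin n) (o : Fin r₀ ⊕ (Fin n × Fin N)) :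
    (total (0 : Matrix (Fin r₀) (Fin r₀) ℂ) (Pi.single j H) * M) (Sum.inr (u, j)) o = ∑ k, H u k * M (Sum.inr (k, j)) o := by
  rw [Matrix.mul_apply, sum_comp (j := j) fun i hi => by rw [single_out_right hi, zero_mul]]
  refine Finset.sum_congr rfl fun k _ => ?_
  rw [single_inr, if_pos ⟨rfl, rfl⟩]

theorem mul_right_entry (j : Fin N) (H : Matrix (Fin n) (Fin n) ℂ)
    (M : Matrix (Fin r₀ ⊕ (Fin n × Fin N)) (Fin r₀ ⊕ (Fin n × Fin N)) ℂ) (u : Fin n) (o : Fin r₀ ⊕ (Fin n × Fin N)) :
    (M * total (0 : Matrix (Fin r₀) (Fin r₀) ℂ) (Pi.single j H)) o (Sum.inr (u, j)) = ∑ k, M o (Sum.inr (k, j)) * H k u := by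
  rw [Matrix.mul_apply, sum_comp (j := j) fun i hi => by rw [single_out_left hi, mul_zero]]
  refine Finset.sum_congr rfl fun k _ => ?_
  rw [single_inr, if_pos ⟨rfl, rfl⟩]

theorem mul_left_out {j : Fin N} (H : Matrix (Fin n) (Fin n) ℂ)
    (M : Matrix (Fin r₀ ⊕ (Fin n × Fin N)) (Fin r₀ ⊕ (Fin n × Fin N)) ℂ) {i : Fin r₀ ⊕ (Fin n × Fin N)} (hi : Out j i)
    (o : Fin r₀ ⊕ (Fin n × Fin N)) : (total (0 : Matrix (Fin r₀) (Fin r₀) ℂ) (Pi.single j H) * M) i o = 0 := by
  rw [Matrix.mul_apply]
  exact Finset.sum_eq_zero fun k _ => by rw [single_out_left hi, zero_mul]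

theorem mul_right_out {j : Fin N} (H : Matrix (Fin n) (Fin n) ℂ)
    (M : Matrix (Fin r₀ ⊕ (Fin n × Fin N)) (Fin r₀ ⊕ (Fin n × Fin N)) ℂ) {i : Fin r₀ ⊕ (Fin n × Fin N)} (hi : Out j i)
    (o : Fin r₀ ⊕ (Fin n × Fin N)) : (M * total (0 : Matrix (Fin r₀) (Fin r₀) ℂ) (Pi.single j H)) o i = 0 := by
  rw [Matrix.mul_apply]
  exact Finset.sum_eq_zero fun k _ => by rw [single_out_right hi, mul_zero]

/-- matrices which commute with the symplectic Lie algebras in all components -/
theorem scalars {B : Fin N → Matrix (Fin n) (Fin n) ℂ} (hB : ∀ j, IsUnit (B j).det) (hBt : ∀ j, (B j)ᵀ = -B j)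
    {X : Matrix (Fin r₀ ⊕ (Fin n × Fin N)) (Fin r₀ ⊕ (Fin n × Fin N)) ℂ}
    (h : ∀ j, ∀ H ∈ Pool.Agent.Helper880_R3.lieB (B j), total (0 : Matrix (Fin r₀) (Fin r₀) ℂ) (Pi.single j H) * X =
      X * total 0 (Pi.single j H)) :
    ∃ (X₀ : Matrix (Fin r₀) (Fin r₀) ℂ) (c : Fin N → ℂ), X = total X₀ fun j => c j • 1 := by
  have ha : ∀ (j : Fin N) (k : Fin n) (o : Fin r₀ ⊕ (Fin n × Fin N)), Out j o → X (Sum.inr (k, j)) o = 0 := by
    intro j k o ho
    have h1 : (fun k => X (Sum.inr (k, j)) o) = 0 := Pool.Agent.H885.ENR.kill_right (hB j) (hBt j) fun H hH => by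
      funext u
      have h2 := congrFun (congrFun (h j H hH) (Sum.inr (u, j))) o
      rw [mul_left_entry, mul_right_out _ _ ho] at h2
      exact h2
    exact congrFun h1 k
  have hb : ∀ (j : Fin N) (k : Fin n) (o : Fin r₀ ⊕ (Fin n × Fin N)), Out j o → X o (Sum.inr (k, j)) = 0 := by
    intro j k o ho
    have h1 : (fun k => X o (Sum.inr (k, j))) = 0 := Pool.Agent.H885.ENR.kill_left (hB j) (hBt j) fun H hH => by
      funext u
      have h2 := congrFun (congrFun (h j H hH) o) (Sum.inr (u, j))
      rw [mul_right_entry, mul_left_out _ _ ho] at h2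
      exact h2.symm
    exact congrFun h1 k
  have hc : ∀ j : Fin N, ∃ c : ℂ, (Matrix.of fun u v : Fin n => X (Sum.inr (u, j)) (Sum.inr (v, j))) = c • 1 := by
    intro j
    refine Pool.Agent.H885.ENR.scalar_of (hB j) (hBt j) fun H hH => ?_
    ext u v
    have h2 := congrFun (congrFun (h j H hH) (Sum.inr (u, j))) (Sum.inr (v, j))
    rw [mul_left_entry, mul_right_entry] at h2
    rw [Matrix.mul_apply, Matrix.mul_apply]
    exact h2
  choose c hc using hc
  refine ⟨Matrix.of fun i k => X (Sum.inl i) (Sum.inl k), c, ?_⟩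
  ext i k
  rcases i with i | ⟨i, a⟩ <;> rcases k with k | ⟨k, b⟩
  · rfl
  · exact hb b k _ trivial
  · exact ha a i _ trivial
  · unfold total
    rw [Matrix.fromBlocks_apply₂₂, Matrix.blockDiagonal_apply]
    by_cases hab : a = b
    · subst hab
      rw [if_pos rfl, ← hc a]
      rfl
    · rw [if_neg hab]
      exact ha a i _ (Ne.symm hab)

end entries

/-- from the bound for block matrices to the two conclusions -/
theorem concl {m n N r₀ ℓ e r : ℕ} {F : Type} [Field F] [NumberField F] {x : Fibres F m n N r₀ ℓ} (hu : IsUnit (total x.C₀ x.periods))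
    (h : Module.finrank ℂ (Pool.Agent.H885.blT r₀ (Pool.Agent.H885.conjT x.C x.𝔤)) ≤
        Module.finrank ℂ (Pool.Agent.H885.blT r₀ (Pool.Agent.H885.conjT x.C x.𝔤) ⊓
          Pool.Agent.H885.ENR.cen e (total x.C₀ x.periods) : Submodule ℂ _) + r) :
    x.EndomorphismsUpTo e r ∧ x.OnlyScalars e r := by
  classical
  have hinj : Function.Injective (Pool.Agent.Helper880_MX.TotL r₀ n N) := by
    intro X Y hXY
    funext j
    ext i k
    have h1 : total (0 : Matrix (Fin r₀) (Fin r₀) ℂ) X = total 0 Y := hXY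
    have h2 := congrFun (congrFun h1 (Sum.inr (i, j))) (Sum.inr (k, j))
    unfold total at h2
    simp only [Matrix.fromBlocks_apply₂₂, Matrix.blockDiagonal_apply, if_true] at h2
    exact h2
  have hfr : ∀ p : Submodule ℂ (Fin N → Matrix (Fin n) (Fin n) ℂ),
      Module.finrank ℂ (Pool.Agent.H885.blT r₀ p) = Module.finrank ℂ p := fun p =>
    ((Submodule.equivMapOfInjective _ hinj p).finrank_eq).symm
  have hconj : Pool.Agent.H885.conjT x.C x.𝔤 = conjugate x.C x.𝔤 := rfl
  have hinf : (Pool.Agent.H885.blT r₀ (conjugate x.C x.𝔤) ⊓ Pool.Agent.H885.ENR.cen e (total x.C₀ x.periods) :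
      Submodule ℂ _) = Pool.Agent.H885.blT r₀ (conjugate x.C x.𝔤 ⊓ inBlocks (commutant e (total x.C₀ x.periods))) := by
    rw [commutant_eq]
    ext Y
    constructor
    · rintro ⟨⟨X, hX, rfl⟩, hY⟩
      exact ⟨X, ⟨hX, hY⟩, rfl⟩
    · rintro ⟨X, ⟨hX, hY⟩, rfl⟩
      exact ⟨⟨X, hX, rfl⟩, hY⟩
  rw [hconj, hinf, hfr, hfr] at h
  refine ⟨h, fun hr hbig X Y hXY => ?_⟩
  choose B hB hBt hg using hbig
  have hCj : ∀ j, IsUnit (x.C j).det := fun j => by
    have hud := (Pool.Agent.Helper880_R3.Tot_unit hu).2 j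
    have hPj : IsUnit (x.periods j).det := (Matrix.isUnit_iff_isUnit_det _).1 hud
    have h1 : x.periods j = x.C j * value (x.φ j) (x.Z j) (x.a j) (x.b j) := rfl
    rw [h1, Matrix.det_mul] at hPj
    exact isUnit_of_mul_isUnit_left hPj
  set B' : Fin N → Matrix (Fin n) (Fin n) ℂ := fun j => x.C j * B j * (x.C j)ᵀ with hB'
  have hB'd : ∀ j, IsUnit (B' j).det := fun j => by
    rw [hB']
    simp only [Matrix.det_mul, Matrix.det_transpose]
    exact ((hCj j).mul ((Matrix.isUnit_iff_isUnit_det _).1 (hB j))).mul (hCj j)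
  have hB't : ∀ j, (B' j)ᵀ = -B' j := fun j => by
    rw [hB']
    simp only [Matrix.transpose_mul, Matrix.transpose_transpose, hBt, Matrix.neg_mul, Matrix.mul_neg, Matrix.mul_assoc]
  refine scalars hB'd hB't fun j H hH => ?_
  -- the component `j`
  have hle : (Pool.Agent.Helper880_R3.lieB (B' j)).map
      (LinearMap.single ℂ (fun _ : Fin N => Matrix (Fin n) (Fin n) ℂ) j) ≤ conjugate x.C x.𝔤 := by
    rintro _ ⟨H, hH, rfl⟩
    have h1 : (x.C j)⁻¹ * H * x.C j * B j + B j * ((x.C j)⁻¹ * H * x.C j)ᵀ = 0 := by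
      have h2 : (x.C j)⁻¹ * (H * B' j + B' j * Hᵀ) * ((x.C j)ᵀ)⁻¹ = 0 := by rw [hH.2, Matrix.mul_zero, Matrix.zero_mul]
      have h3 : IsUnit ((x.C j)ᵀ).det := by
        rw [Matrix.det_transpose]
        exact hCj j
      rw [← h2, hB']
      simp only [Matrix.transpose_mul, Matrix.transpose_nonsing_inv, Matrix.mul_add, Matrix.add_mul]
      congr 1
      · calc (x.C j)⁻¹ * H * x.C j * B j = (x.C j)⁻¹ * H * x.C j * B j * ((x.C j)ᵀ * ((x.C j)ᵀ)⁻¹) := by
              rw [Matrix.mul_nonsing_inv _ h3, Matrix.mul_one]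
          _ = _ := by simp only [Matrix.mul_assoc]
      · calc B j * ((x.C j)ᵀ * (Hᵀ * ((x.C j)ᵀ)⁻¹)) =
            ((x.C j)⁻¹ * x.C j) * (B j * ((x.C j)ᵀ * (Hᵀ * ((x.C j)ᵀ)⁻¹))) := by
              rw [Matrix.nonsing_inv_mul _ (hCj j), Matrix.one_mul]
          _ = _ := by simp only [Matrix.mul_assoc]
    refine ⟨_, hg j _ h1, fun i => ?_⟩
    show (Pi.single j H : Fin N → Matrix (Fin n) (Fin n) ℂ) i = _
    by_cases hi : i = j
    · subst hi
      rw [Pi.single_eq_same, Pi.single_eq_same]
      calc H = (x.C i * (x.C i)⁻¹) * H * (x.C i * (x.C i)⁻¹) := by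
            rw [Matrix.mul_nonsing_inv _ (hCj i), Matrix.one_mul, Matrix.mul_one]
        _ = _ := by simp only [Matrix.mul_assoc]
    · rw [Pi.single_eq_of_ne hi, Pi.single_eq_of_ne hi, Matrix.mul_zero, Matrix.zero_mul]
  have hcod := Pool.Agent.H885.ENR.cod_inter
    (LinearMap.single ℂ (fun _ : Fin N => Matrix (Fin n) (Fin n) ℂ) j) (fun H H' hh => by
      have h1 : (Pi.single j H : Fin N → Matrix (Fin n) (Fin n) ℂ) = Pi.single j H' := hh
      have h2 := congrFun h1 j
      rw [Pi.single_eq_same, Pi.single_eq_same] at h2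
      exact h2) hle
    (K := conjugate x.C x.𝔤 ⊓ inBlocks (commutant e (total x.C₀ x.periods))) inf_le_left h
  have hbr : ∀ H H' : Matrix (Fin n) (Fin n) ℂ, total (0 : Matrix (Fin r₀) (Fin r₀) ℂ) (Pi.single j (H * H' - H' * H)) =
      total 0 (Pi.single j H) * total 0 (Pi.single j H') - total 0 (Pi.single j H') * total 0 (Pi.single j H) := by
    intro H H'
    have h1 : ∀ H H' : Matrix (Fin n) (Fin n) ℂ, total (0 : Matrix (Fin r₀) (Fin r₀) ℂ) (Pi.single j H) *
        total 0 (Pi.single j H') = total 0 (Pi.single j (H * H')) := by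
      intro H H'
      ext i k
      by_cases hi : Out j i
      · rw [mul_left_out _ _ hi, single_out_left hi]
      · rcases i with i | ⟨i, a⟩
        · exact absurd trivial hi
        · have ha : a = j := by
            by_contra hne
            exact hi hne
          subst ha
          rw [mul_left_entry]
          by_cases hk : Out a k
          · rw [single_out_right hk]
            exact Finset.sum_eq_zero fun _ _ => by rw [single_out_right hk, mul_zero]
          · rcases k with k | ⟨k, b⟩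
            · exact absurd trivial hk
            · have hb : b = a := by
                by_contra hne
                exact hk hne
              subst hb
              rw [single_inr, if_pos ⟨rfl, rfl⟩, Matrix.mul_apply]
              exact Finset.sum_congr rfl fun _ _ => by rw [single_inr, if_pos ⟨rfl, rfl⟩]
    rw [h1, h1]
    ext i k
    rw [Matrix.sub_apply]
    rcases i with i | ⟨i, a⟩ <;> rcases k with k | ⟨k, b⟩
    · exact (sub_zero (0 : ℂ)).symm
    · exact (sub_zero (0 : ℂ)).symm
    · exact (sub_zero (0 : ℂ)).symm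
    · rw [single_inr, single_inr, single_inr]
      split_ifs
      · rfl
      · exact (sub_zero (0 : ℂ)).symm
  have hall := Pool.Agent.Helper880_R3.cod_sp (hB'd j) (hB't j) (by omega : 2 ≤ n) (by omega : r ≤ n - 2) _ inf_le_left
    (fun H hH H' hH' => by
      have hL := Pool.Agent.Helper880_R3.lieB_lie (B' j) H hH.1 H' hH'.1
      refine ⟨hL, hle ⟨_, hL, rfl⟩, ?_⟩
      show total 0 (Pi.single j (H * H' - H' * H)) ∈ commutant e (total x.C₀ x.periods)
      rw [hbr, commutant_eq]
      have h1 : total 0 (Pi.single j H) ∈ commutant e (total x.C₀ x.periods) := hH.2.2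
      have h2 : total 0 (Pi.single j H') ∈ commutant e (total x.C₀ x.periods) := hH'.2.2
      rw [commutant_eq] at h1 h2
      exact Pool.Agent.H885.ENR.lie_mem h1 h2) hcod
  have h1 : total 0 (Pi.single j H) ∈ commutant e (total x.C₀ x.periods) := (hall hH).2.2
  exact h1 X Y hXY

/-- the two conclusions are monotone in `r` -/
theorem mono {m n N r₀ ℓ e r r' : ℕ} {F : Type} [Field F] [NumberField F] {x : Fibres F m n N r₀ ℓ} (hr : r ≤ r')
    (h : x.EndomorphismsUpTo e r ∧ x.OnlyScalars e r) : x.EndomorphismsUpTo e r' ∧ x.OnlyScalars e r' :=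
  ⟨h.1.trans (Nat.add_le_add_left hr _), fun hr' hbig X Y hXY => h.2 (by omega) hbig X Y hXY⟩

/-- a bounded number of separated tuples -/
theorem core (F : Type) [Field F] [NumberField F] (m n N r₀ q s ℓ e L : ℕ) : ∃ E : ℕ,
    ∀ (M : ℕ) (β : Fin s → ℂ) (H : ℝ) (h w b₀ : ℕ), 1 ≤ H →
    (2 * H * ((h : ℝ) + w + 2)) ^ E ≤ (b₀ : ℝ) → ∀ x : Fin L → Fibres F m n N r₀ ℓ, (∀ l, (x l).Valid q M e β H h w b₀) →
    (∀ l l', l ≠ l' → Separated H h (x l) (x l')) →
    ∃ ρ : Fin L → ℕ, ∑ l, ρ l ≤ s ∧ ∀ l, (x l).EndomorphismsUpTo e (ρ l + ℓ) ∧ (x l).OnlyScalars e (ρ l + ℓ) := by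
  classical
  obtain ⟨E₀, hbase⟩ := Pool.Agent.H885.base_F F m n q
  obtain ⟨E, hE⟩ := Pool.Agent.H885.ZW.uniformZF F n N q r₀ s ℓ (max e 1) L (Pool.Agent.H885.ENR.compat_cen r₀ n N e)
  obtain ⟨e₁, he₁⟩ := Pool.Agent.H885.pow_absorb (c := (2 : ℝ) * (1 + 2 ^ m)) (by
    have : (1 : ℝ) ≤ 2 ^ m := one_le_pow₀ (by norm_num)
    linarith)
  refine ⟨(e₁ + E₀ + 1) * E, fun M β H h w b₀ hH hbig xs hxs hsep => ?_⟩
  set x : ℝ := 2 * H * ((h : ℝ) + w + 2) with hx
  have hh0 : (0 : ℝ) ≤ h := by positivity
  have hw0 : (0 : ℝ) ≤ w := by positivity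
  have hx1 : (h : ℝ) + w + 2 ≤ x := by
    rw [hx]
    nlinarith
  have hx2 : 2 ≤ x := by linarith
  have hx3 : H * ((h : ℝ) + 2) ≤ x := by
    rw [hx]
    nlinarith
  have hx4 : 2 * H * ((h : ℝ) + 2) ≤ x := by
    rw [hx]
    nlinarith
  have hbig' : (2 * (2 * H * ((h : ℝ) + 2)) ^ E₀ * ((w : ℝ) + 2 ^ m * (H * ((h : ℝ) + 2)) + 2)) ^ E ≤ (b₀ : ℝ) := by
    refine le_trans ?_ hbig
    rw [pow_mul]
    refine pow_le_pow_left₀ (by positivity) ?_ E
    have h1 : (2 * H * ((h : ℝ) + 2)) ^ E₀ ≤ x ^ E₀ := pow_le_pow_left₀ (by positivity) hx4 _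
    have h2 : (w : ℝ) + 2 ^ m * (H * ((h : ℝ) + 2)) + 2 ≤ (1 + 2 ^ m) * x := by
      have h3 : (2 : ℝ) ^ m * (H * ((h : ℝ) + 2)) ≤ 2 ^ m * x := mul_le_mul_of_nonneg_left hx3 (by positivity)
      linarith
    calc 2 * (2 * H * ((h : ℝ) + 2)) ^ E₀ * ((w : ℝ) + 2 ^ m * (H * ((h : ℝ) + 2)) + 2) ≤
        2 * x ^ E₀ * ((1 + 2 ^ m) * x) := by
          refine mul_le_mul (by linarith) h2 (by positivity) (by positivity)
      _ = (2 * (1 + 2 ^ m)) * (x ^ E₀ * x) := by ring
      _ ≤ x ^ e₁ * (x ^ E₀ * x) := mul_le_mul_of_nonneg_right (he₁ x hx2) (by positivity)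
      _ = x ^ (e₁ + E₀ + 1) := by ring
  have hFar : ∀ b c : ℕ, Far m H h b c → 2 * (2 ^ m * (H * ((h : ℝ) + 2))) < |(b : ℝ) - c| := by
    intro b c hbc
    refine lt_of_eq_of_lt ?_ hbc
    ring
  set X : Pool.Agent.H885.DatF F L n N := ⟨fun l => (xs l).φ, (2 * H * ((h : ℝ) + 2)) ^ E₀,
      fun l j => Pool.Agent.H885.lineFP ((xs l).a j) ((xs l).T j),
      fun l j p p' => ∑ i, Polynomial.C ((xs l).a j i) * Pool.Agent.H885.lineFP ((xs l).a j) ((xs l).A j i p p'),
      fun l j => Pool.Agent.H885.lineFM ((xs l).a j) ((xs l).Z j), fun l j => Pool.Agent.H885.lineFM ((xs l).a j) ((xs l).W j),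
      2 ^ m * (H * ((h : ℝ) + 2)), w, b₀, fun l => (xs l).b, fun l => (xs l).𝔤⟩ with hX
  set Y : Pool.Agent.H885.ZW.DatZ L n N r₀ s ℓ := ⟨β, fun l => (xs l).γ, fun l => (xs l).κ, fun l => (xs l).C₀,
    fun l => (xs l).C, fun _ _ => 1, fun l j => value ((xs l).φ j) ((xs l).Z j) ((xs l).a j) ((xs l).b j),
    fun l => (xs l).𝔤⟩ with hY
  have hYC : ∀ l, Y.C l = (xs l).C := fun l => funext fun j => Matrix.mul_one _
  have hP : ∀ l, Y.P l = total (xs l).C₀ (xs l).periods := by
    intro l
    unfold Pool.Agent.H885.ZW.DatZ.P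
    rw [hYC]
    rfl
  have hXOK : X.OK q E := ⟨one_le_pow₀ (by nlinarith), fun l j => hbase H hH _ _ _ _ (gfam_of ((hxs l).family j)) h hh0 _
        ((hxs l).numerators j) ((hxs l).pole j), by positivity, fun l j a' b' k =>
        Pool.Agent.H885.lineF_size hH (((hxs l).family j).size a' b') hh0 ((hxs l).numerators j) k,
      fun l j => (hxs l).window j, fun l j l' j' hne => by
        by_cases hll : l = l'
        · subst hll
          rcases (hxs l).far j j' with h2 | h2
          · exact absurd ⟨rfl, h2⟩ hne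
          · exact hFar _ _ h2
        · exact hFar _ _ (hsep l l' hll j j'), hbig', fun l X hX c => Pool.Agent.H885.Tg_iff.2 ((hxs l).symmetries X hX c)⟩
  have hone : ∀ (l : Fin L) (z : ℂ), (z = 0 ∨ z = 1) → Pool.Agent.H885.AlgD (max e 1) (Fin.append β (xs l).γ) z := by
    intro l z hz
    have h1 : Pool.Agent.H885.AlgN (max e 1) z := by
      rcases hz with rfl | rfl
      · exact ⟨Polynomial.X, Polynomial.X_ne_zero, by rw [Polynomial.natDegree_X]; exact le_max_right _ _, by
          rw [Polynomial.aeval_X]⟩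
      · exact ⟨Polynomial.X - Polynomial.C 1, Polynomial.X_sub_C_ne_zero 1, by
          rw [Polynomial.natDegree_X_sub_C]; exact le_max_right _ _, by
          rw [map_sub, Polynomial.aeval_X, Polynomial.aeval_C, map_one, sub_self]⟩
    exact h1.toD _
  have hYOK : Y.OK (max e 1) := by
    refine ⟨fun l => (hxs l).factor, fun l i j => Pool.Agent.H885.AlgD.mono (le_max_left _ _) ((hxs l).central₀ i j),
      fun l a i j => Pool.Agent.H885.AlgD.mono (le_max_left _ _) ((hxs l).central a i j), fun l a i j => ?_, fun l => ?_⟩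
    · refine hone l _ ?_
      show (1 : Matrix (Fin n) (Fin n) ℂ) i j = 0 ∨ (1 : Matrix (Fin n) (Fin n) ℂ) i j = 1
      by_cases hij : i = j
      · subst hij
        exact Or.inr (Matrix.one_apply_eq i)
      · exact Or.inl (Matrix.one_apply_ne hij)
    · rw [hP]
      exact (hxs l).invertible
  obtain ⟨ρ, hρ, hρ'⟩ := hE X Y hXOK hYOK (fun l j => rfl) (fun l => rfl)
  refine ⟨ρ, hρ, fun l => concl (hxs l).invertible ?_⟩
  have h1 := hρ' l _ rfl
  rw [hP, hYC] at h1
  exact h1

/-- parts 1 and 2 -/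
theorem parts (F : Type) [Field F] [NumberField F] (m n N r₀ M q s ℓ e : ℕ) :
    ∃ E : ℕ, ∀ (β : Fin s → ℂ) (H : ℝ) (h w b₀ : ℕ), 1 ≤ H → (2 * H * ((h : ℝ) + w + 2)) ^ E ≤ (b₀ : ℝ) →
    (∀ (L : ℕ) (x : Fin L → Fibres F m n N r₀ ℓ), (∀ l, (x l).Valid q M e β H h w b₀) →
      (∀ l l', l ≠ l' → Separated H h (x l) (x l')) →
      ∃ ρ : Fin L → ℕ, ∑ l, ρ l ≤ s ∧ ∀ l, (x l).EndomorphismsUpTo e (ρ l + ℓ) ∧ (x l).OnlyScalars e (ρ l + ℓ)) ∧
    ∀ r : ℕ, ℓ ≤ r → ∃ 𝓔 : Finset ℕ, 𝓔.card ≤ M * (s / (r + 1 - ℓ)) ∧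
      ∀ x : Fibres F m n N r₀ ℓ, x.Valid q M e β H h w b₀ → (∀ j, ∀ c ∈ 𝓔, Far m H h (x.b j) c) →
      x.EndomorphismsUpTo e r ∧ x.OnlyScalars e r := by
  classical
  choose E hE using fun L => core F m n N r₀ q s ℓ e L
  set E' : ℕ := ∑ L ∈ Finset.range (s + 2), E L with hE'
  have hle : ∀ L, L ≤ s + 1 → E L ≤ E' := fun L hL =>
    Finset.single_le_sum (f := fun L => E L) (fun _ _ => Nat.zero_le _) (Finset.mem_range.2 (by omega : L < s + 2))
  refine ⟨E', fun β H h w b₀ hH hbig => ?_⟩
  have hx1 : (1 : ℝ) ≤ 2 * H * ((h : ℝ) + w + 2) := by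
    have h1 : (0 : ℝ) ≤ h := by positivity
    have h2 : (0 : ℝ) ≤ w := by positivity
    nlinarith
  set Gd : Fibres F m n N r₀ ℓ → ℕ → Prop := fun x r => x.EndomorphismsUpTo e r ∧ x.OnlyScalars e r with hGd
  have hGm : ∀ x r r', r ≤ r' → Gd x r → Gd x r' := fun x r r' hr h1 => mono hr h1
  -- at most `s + 1` tuples
  have hcore : ∀ (L : ℕ) (x : Fin L → Fibres F m n N r₀ ℓ), L ≤ s + 1 → (∀ l, (x l).Valid q M e β H h w b₀) →
      (∀ l l', l ≠ l' → Separated H h (x l) (x l')) →
      ∃ ρ : Fin L → ℕ, ∑ l, ρ l ≤ s ∧ ∀ l, Gd (x l) (ρ l + ℓ) := by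
    intro L x hL hx hsep
    refine hE L M β H h w b₀ hH ?_ x hx hsep
    exact (pow_le_pow_right₀ hx1 (hle L hL)).trans hbig
  -- the defect
  have hex : ∀ x : Fibres F m n N r₀ ℓ, x.Valid q M e β H h w b₀ → ∃ ρ, Gd x (ρ + ℓ) := by
    intro x hx
    obtain ⟨ρ, -, hρ⟩ := hcore 1 (fun _ => x) (by omega) (fun _ => hx) fun l l' hll => absurd (Subsingleton.elim l l') hll
    exact ⟨ρ 0, hρ 0⟩
  set df : Fibres F m n N r₀ ℓ → ℕ := fun x => if hx : x.Valid q M e β H h w b₀ then Nat.find (hex x hx) else 0 with hdf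
  have hdf1 : ∀ x : Fibres F m n N r₀ ℓ, x.Valid q M e β H h w b₀ → Gd x (df x + ℓ) := by
    intro x hx
    rw [hdf]
    simp only [dif_pos hx]
    exact Nat.find_spec (hex x hx)
  have hdf2 : ∀ (x : Fibres F m n N r₀ ℓ) (ρ : ℕ), x.Valid q M e β H h w b₀ → Gd x (ρ + ℓ) → df x ≤ ρ := by
    intro x ρ hx hρ
    rw [hdf]
    simp only [dif_pos hx]
    exact Nat.find_min' (hex x hx) hρ
  have hmain : ∀ (L : ℕ) (x : Fin L → Fibres F m n N r₀ ℓ), (∀ l, (x l).Valid q M e β H h w b₀) →
      (∀ l l', l ≠ l' → Separated H h (x l) (x l')) → ∑ l, df (x l) ≤ s := by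
    intro L x hx hsep
    -- subsets
    have hsub : ∀ Λ : Finset (Fin L), Λ.card ≤ s + 1 → ∑ l ∈ Λ, df (x l) ≤ s := by
      intro Λ hΛ
      set f := Λ.orderEmbOfFin rfl with hf
      obtain ⟨ρ, hρ, hρ'⟩ := hcore Λ.card (fun i => x (f i)) hΛ (fun i => hx _) fun i i' hii =>
        hsep _ _ fun h1 => hii (f.injective h1)
      have h1 : ∑ i : Fin Λ.card, df (x (f i)) = ∑ l ∈ Λ, df (x l) := by
        have h2 : Λ = Finset.univ.map f.toEmbedding := by
          rw [hf, ← Finset.coe_inj]
          simp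
        conv_rhs => rw [h2, Finset.sum_map]
        rfl
      rw [← h1]
      exact (Finset.sum_le_sum fun i _ => hdf2 _ _ (hx _) (hρ' i)).trans hρ
    set Λ := Finset.univ.filter fun l => df (x l) ≠ 0 with hΛ
    have h1 : ∑ l, df (x l) = ∑ l ∈ Λ, df (x l) := by
      rw [hΛ, Finset.sum_filter_ne_zero]
    rcases le_or_gt Λ.card (s + 1) with h2 | h2
    · rw [h1]
      exact hsub Λ h2
    · obtain ⟨Λ', hΛ', hcard⟩ := Finset.exists_subset_card_eq (s := Λ) h2.le
      have h3 := hsub Λ' hcard.le
      have h4 : Λ'.card ≤ ∑ l ∈ Λ', df (x l) := by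
        rw [Finset.card_eq_sum_ones]
        refine Finset.sum_le_sum fun l hl => ?_
        have := (Finset.mem_filter.1 (hΛ' hl)).2
        omega
      omega
  refine ⟨fun L x hx hsep => ⟨fun l => df (x l), hmain L x hx hsep, fun l => hdf1 _ (hx l)⟩, fun r hr => ?_⟩
  -- the exceptional denominators
  set P : ℕ → Prop := fun p => ∃ x : Fin p → Fibres F m n N r₀ ℓ, (∀ l, (x l).Valid q M e β H h w b₀) ∧
    (∀ l l', l ≠ l' → Separated H h (x l) (x l')) ∧ ∀ l, ¬ Gd (x l) r with hP
  have hPle : ∀ p, P p → p ≤ s / (r + 1 - ℓ) := by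
    rintro p ⟨x, hx, hsep, hbad⟩
    rw [Nat.le_div_iff_mul_le (by omega)]
    have h1 := hmain p x hx hsep
    have h2 : ∀ l, r + 1 - ℓ ≤ df (x l) := by
      intro l
      by_contra hcon
      apply hbad l
      exact hGm (x l) (df (x l) + ℓ) r (by omega) (hdf1 (x l) (hx l))
    have h3 : ∑ _l : Fin p, (r + 1 - ℓ) ≤ ∑ l, df (x l) := Finset.sum_le_sum fun l _ => h2 l
    rw [Finset.sum_const, Finset.card_univ, Fintype.card_fin, smul_eq_mul] at h3
    exact h3.trans h1
  have hP0 : P 0 := ⟨fun l => l.elim0, fun l => l.elim0, fun l => l.elim0, fun l => l.elim0⟩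
  obtain ⟨p, hPp, hPp1⟩ : ∃ p, P p ∧ ¬ P (p + 1) := by
    by_contra hcon
    push Not at hcon
    have h1 : ∀ p, P p := by
      intro p
      induction p with
      | zero => exact hP0
      | succ p ih => exact hcon p ih
    have := hPle _ (h1 (s / (r + 1 - ℓ) + 1))
    omega
  have hple := hPle p hPp
  obtain ⟨x, hx, hsep, hbad⟩ := hPp
  refine ⟨Finset.univ.biUnion fun l => Finset.univ.image (x l).b, ?_, fun y hy hyF => ?_⟩
  · refine Finset.card_biUnion_le.trans ?_
    refine (Finset.sum_le_card_nsmul _ _ M fun l _ => (hx l).different).trans ?_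
    rw [Finset.card_univ, Fintype.card_fin, smul_eq_mul, mul_comm]
    exact Nat.mul_le_mul_left _ hple
  · by_contra hybad
    apply hPp1
    refine ⟨Fin.cons y x, fun l => ?_, fun l l' hll i j => ?_, fun l => ?_⟩
    · refine Fin.cases ?_ (fun l => ?_) l
      · exact hy
      · exact hx l
    · have hin : ∀ l j, (x l).b j ∈ Finset.univ.biUnion fun l => Finset.univ.image (x l).b := fun l j =>
        Finset.mem_biUnion.2 ⟨l, Finset.mem_univ _, Finset.mem_image_of_mem _ (Finset.mem_univ _)⟩
      rcases Fin.eq_zero_or_eq_succ l with rfl | ⟨l, rfl⟩ <;> rcases Fin.eq_zero_or_eq_succ l' with rfl | ⟨l', rfl⟩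
      · exact absurd rfl hll
      · rw [Fin.cons_zero, Fin.cons_succ]
        exact hyF i _ (hin l' j)
      · rw [Fin.cons_zero, Fin.cons_succ]
        exact far_symm (hyF j _ (hin l i))
      · rw [Fin.cons_succ, Fin.cons_succ]
        exact hsep l l' (fun h1 => hll (by rw [h1])) i j
    · refine Fin.cases ?_ (fun l => ?_) l
      · exact hybad
      · exact hbad l

/-- **The theorem.** Part 1: for separated tuples of fibres the sum of the codimensions of the part of the monodromy which
commutes with all endomorphisms of bounded degree is at most `s` (up to `ℓ` for each tuple). Part 2: the number of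
exceptional denominators in short windows. Part 3: the number of all exceptional denominators. -/
theorem result (F : Type) [Field F] [NumberField F] (m n N r₀ M q s ℓ e : ℕ) :
    (∃ E : ℕ, ∀ (β : Fin s → ℂ) (H : ℝ) (h w b₀ : ℕ), 1 ≤ H → (2 * H * ((h : ℝ) + w + 2)) ^ E ≤ (b₀ : ℝ) →
    (∀ (L : ℕ) (x : Fin L → Fibres F m n N r₀ ℓ), (∀ l, (x l).Valid q M e β H h w b₀) →
      (∀ l l', l ≠ l' → Separated H h (x l) (x l')) →
      ∃ ρ : Fin L → ℕ, ∑ l, ρ l ≤ s ∧ ∀ l, (x l).EndomorphismsUpTo e (ρ l + ℓ) ∧ (x l).OnlyScalars e (ρ l + ℓ)) ∧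
    ∀ r : ℕ, ℓ ≤ r → ∃ 𝓔 : Finset ℕ, 𝓔.card ≤ M * (s / (r + 1 - ℓ)) ∧
      ∀ x : Fibres F m n N r₀ ℓ, x.Valid q M e β H h w b₀ → (∀ j, ∀ c ∈ 𝓔, Far m H h (x.b j) c) →
      x.EndomorphismsUpTo e r ∧ x.OnlyScalars e r) ∧
    ∃ k : ℕ, 0 < k ∧ ∀ (β : Fin s → ℂ) (H : ℝ) (h : ℕ), 1 ≤ H → ∃ C : ℝ, ∀ B : ℕ, 0 < B →
      ((exceptional F m n N r₀ ℓ q e β H h B).ncard : ℝ) ^ k ≤ C * (B : ℝ) ^ (k - 1) := by
  classical
  obtain ⟨E, hE⟩ := parts F m n N r₀ 1 q s ℓ e
  refine ⟨parts F m n N r₀ M q s ℓ e, 2 * (E + 1), by omega, fun β H h hH => ?_⟩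
  exact Pool.Agent.H885.count_windows (fun B => exceptional F m n N r₀ ℓ q e β H h B) hH h m (s) E
    (fun B b hb => hb.1) fun w b₀ hbig => by
      obtain ⟨-, h0⟩ := hE β H h w b₀ hH hbig
      obtain ⟨𝓔, h1, h2⟩ := h0 ℓ le_rfl
      have h3 : ℓ + 1 - ℓ = 1 := by omega
      rw [h3, Nat.div_one, one_mul] at h1
      refine ⟨𝓔, h1, fun B b hb hb1 hb2 => ?_⟩
      obtain ⟨x, hx1, hx2, hx3⟩ := hb.2
      by_contra hcon
      push Not at hcon
      refine hx3 (h2 x ⟨fun j => ?_, hx1.far, hx1.different, hx1.numerators, hx1.family, hx1.pole, hx1.factor, hx1.central₀,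
        hx1.central, hx1.invertible, hx1.symmetries⟩ fun j c hc => ?_)
      · rw [hx2 j]
        exact ⟨hb1, hb2⟩
      · rw [hx2 j]
        exact hcon c hc

end Pool.Agent.Results.MP_dd7e6b_nt.EndomorphismsOverNumberFields
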